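import Mathlib

/-!
# A maximal submonoid whose minimal generating set is not a minimal factor generator

Letters are opening and closing brackets of two types. Let `M` be the set of words in which every
closing bracket closes a matching opening bracket (the prefixes of Dyck words) and `X` its set of
indecomposable elements. A word outside `M` either contains a mismatch or, after a suitable opening
bracket, creates one; hence `M = X*` is maximal in `F(M)`. Every element of `M` is a prefix of a Dyck
word, and Dyck words are products of indecomposable Dyck words; so a single opening bracket can be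
removed from `X` without changing the set of factors.
-/

set_option autoImplicit false

namespace Pool.Agent.Results.MP_51bcab_lc.NotMinimal

/-- `F(L)`: the set of factors of words of `L`. -/
def factors {α : Type} (L : Set (FreeMonoid α)) : Set (FreeMonoid α) :=
  {u | ∃ x y, x * u * y ∈ L}

/-- `X` is the minimal generating set of `X*`: the empty word is not in `X` and no element of `X`
is a product of two or more elements of `X`. -/
def IsMinGen {α : Type} (X : Set (FreeMonoid α)) : Prop :=
  1 ∉ X ∧ ∀ l : List (FreeMonoid α), 2 ≤ l.length → (∀ y ∈ l, y ∈ X) → l.prod ∉ X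

/-- `M` is an `L`-maximal submonoid. -/
def IsMaximalIn {α : Type} (L : Set (FreeMonoid α)) (M : Submonoid (FreeMonoid α)) : Prop :=
  (M : Set (FreeMonoid α)) ⊆ L ∧
    ∀ N : Submonoid (FreeMonoid α), M ≤ N → (N : Set (FreeMonoid α)) ⊆ L → N = M

/-- `X` is a minimal factor generator: no proper subset `Y` of `X` has `F(Y*) = F(X*)`. -/
def IsMinFactorGen {α : Type} (X : Set (FreeMonoid α)) : Prop :=
  ∀ Y : Set (FreeMonoid α), Y ⊂ X →
    factors (Submonoid.closure Y : Set (FreeMonoid α)) ≠
      factors (Submonoid.closure X : Set (FreeMonoid α))

/-- The alphabet: `(t, true)` and `(t, false)` are the opening and the closing bracket of type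
`t`. -/
abbrev A := Bool × Bool

/-- Read a word with a stack of open brackets; `none` if a closing bracket does not match. -/
def run : List A → List Bool → Option (List Bool)
  | [], s => some s
  | (t, true) :: w, s => run w (t :: s)
  | (_, false) :: _, [] => none
  | (t, false) :: w, x :: s => if x = t then run w s else none

theorem run_append (u v : List A) (s : List Bool) :
    run (u ++ v) s = (run u s).bind (run v) := by
  induction u generalizing s with
  | nil => rfl
  | cons a u ih =>
    obtain ⟨t, b⟩ := a
    cases b with
    | true => simp only [List.cons_append, run]; exact ih _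
    | false =>
      cases s with
      | nil => simp [run]
      | cons x s =>
        simp only [List.cons_append, run]
        split_ifs with h
        · exact ih _
        · rfl

theorem run_frame (w : List A) (s t r : List Bool) (h : run w s = some t) :
    run w (s ++ r) = some (t ++ r) := by
  induction w generalizing s with
  | nil => simp only [run, Option.some.injEq] at h ⊢; rw [h]
  | cons a w ih =>
    obtain ⟨c, b⟩ := a
    cases b with
    | true => exact ih (c :: s) h
    | false =>
      cases s with
      | nil => simp [run] at h
      | cons x s =>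
        simp only [run, List.cons_append] at h ⊢
        split_ifs at h ⊢ with h1
        exact ih s h

theorem run_fail (w : List A) (s : List Bool) (h : run w s = none) :
    ∃ t : Bool, ∀ r, run w (s ++ t :: r) = none := by
  induction w generalizing s with
  | nil => simp [run] at h
  | cons a w ih =>
    obtain ⟨c, b⟩ := a
    cases b with
    | true => exact ih (c :: s) h
    | false =>
      cases s with
      | nil =>
        refine ⟨!c, fun r => ?_⟩
        have : (!c) ≠ c := by cases c <;> decide
        simp [run, this]
      | cons x s =>
        by_cases h1 : x = c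
        · subst h1
          have h2 : run w s = none := by simpa [run] using h
          obtain ⟨t, ht⟩ := ih s h2
          exact ⟨t, fun r => by simpa [run] using ht r⟩
        · exact ⟨true, fun r => by simp [run, h1]⟩

theorem run_close (s r : List Bool) :
    run (s.map fun t => ((t, false) : A)) (s ++ r) = some r := by
  induction s with
  | nil => rfl
  | cons x s ih => simpa [run] using ih

/-- The prefixes of Dyck words. -/
def M : Submonoid (FreeMonoid A) where
  carrier := {w | ∃ t, run w.toList [] = some t}
  one_mem' := ⟨[], rfl⟩
  mul_mem' := by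
    rintro u v ⟨s, hs⟩ ⟨t, ht⟩
    refine ⟨t ++ s, ?_⟩
    rw [FreeMonoid.toList_mul, run_append, hs]
    exact run_frame _ [] t s ht

/-- The indecomposable elements of `M`. -/
def X : Set (FreeMonoid A) :=
  {w | w ∈ M ∧ w ≠ 1 ∧ ∀ u v, u ∈ M → v ∈ M → u * v = w → u = 1 ∨ v = 1}

/-- The opening bracket which is removed. -/
def a : FreeMonoid A := FreeMonoid.of (true, true)

theorem length_lt {u v w : FreeMonoid A} (h : u * v = w) (hu : u ≠ 1) (hv : v ≠ 1) :
    u.length < w.length ∧ v.length < w.length := by
  have h1 : w.length = u.length + v.length := by rw [← h, FreeMonoid.length_mul]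
  have h2 : u.length ≠ 0 := fun h => hu (FreeMonoid.length_eq_zero.1 h)
  have h3 : v.length ≠ 0 := fun h => hv (FreeMonoid.length_eq_zero.1 h)
  omega

theorem closure_X : Submonoid.closure X = M := by
  apply le_antisymm
  · exact (Submonoid.closure_le).2 fun w hw => hw.1
  · have key : ∀ n : ℕ, ∀ w : FreeMonoid A, w.length = n → w ∈ M →
        w ∈ Submonoid.closure X := by
      intro n
      induction n using Nat.strong_induction_on with
      | _ n ih =>
        intro w hn hw
        by_cases h1 : w = 1
        · rw [h1]; exact one_mem _
        by_cases h2 : w ∈ X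
        · exact Submonoid.subset_closure h2
        have h3 : ∃ u v, u ∈ M ∧ v ∈ M ∧ u * v = w ∧ u ≠ 1 ∧ v ≠ 1 := by
          by_contra hcon
          refine h2 ⟨hw, h1, fun u v hu hv huv => ?_⟩
          by_contra h
          push Not at h
          exact hcon ⟨u, v, hu, hv, huv, h.1, h.2⟩
        obtain ⟨u, v, hu, hv, huv, hu1, hv1⟩ := h3
        obtain ⟨l1, l2⟩ := length_lt huv hu1 hv1
        rw [← huv]
        exact mul_mem (ih _ (hn ▸ l1) u rfl hu) (ih _ (hn ▸ l2) v rfl hv)
    exact fun w hw => key _ w rfl hw

theorem minGen : IsMinGen X := by
  refine ⟨fun h => h.2.1 rfl, ?_⟩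
  intro l hl hmem hprod
  match l, hl, hmem, hprod with
  | x :: y :: l, _, hmem, hprod =>
    have hx := hmem x (by simp)
    have hy := hmem y (by simp)
    have hl : l.prod ∈ M := by
      apply Submonoid.list_prod_mem
      intro z hz
      exact (hmem z (by simp [hz])).1
    rw [List.prod_cons, List.prod_cons] at hprod
    rcases hprod.2.2 x (y * l.prod) hx.1 (mul_mem hy.1 hl) rfl with h | h
    · exact hx.2.1 h
    · apply hy.2.1
      have h1 : (y * l.prod).length = 0 := by rw [h]; rfl
      rw [FreeMonoid.length_mul] at h1
      exact FreeMonoid.length_eq_zero.1 (by omega)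

theorem dyck_mem (w : FreeMonoid A) (hw : run w.toList [] = some []) :
    w ∈ Submonoid.closure (X \ {a}) := by
  have key : ∀ n : ℕ, ∀ w : FreeMonoid A, w.length = n → run w.toList [] = some [] →
      w ∈ Submonoid.closure (X \ {a}) := by
    intro n
    induction n using Nat.strong_induction_on with
    | _ n ih =>
      intro w hn hw
      by_cases h1 : w = 1
      · rw [h1]; exact one_mem _
      by_cases h2 : w ∈ X
      · refine Submonoid.subset_closure ⟨h2, ?_⟩
        intro h3
        rw [Set.mem_singleton_iff] at h3
        rw [h3] at hw
        simp [a, run] at hw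
      have h3 : ∃ u v, u ∈ M ∧ v ∈ M ∧ u * v = w ∧ u ≠ 1 ∧ v ≠ 1 := by
        by_contra hcon
        refine h2 ⟨⟨_, hw⟩, h1, fun u v hu hv huv => ?_⟩
        by_contra h
        push Not at h
        exact hcon ⟨u, v, hu, hv, huv, h.1, h.2⟩
      obtain ⟨u, v, ⟨s, hs⟩, ⟨t, ht⟩, huv, hu1, hv1⟩ := h3
      obtain ⟨l1, l2⟩ := length_lt huv hu1 hv1
      have h4 : run w.toList [] = some (t ++ s) := by
        rw [← huv, FreeMonoid.toList_mul, run_append, hs]
        exact run_frame _ [] t s ht
      rw [hw, Option.some.injEq] at h4
      have h5 := List.append_eq_nil_iff.1 h4.symm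
      rw [← huv]
      refine mul_mem (ih _ (hn ▸ l1) u rfl ?_) (ih _ (hn ▸ l2) v rfl ?_)
      · rw [hs, h5.2]
      · rw [ht, h5.1]
  exact key _ w rfl hw

theorem factors_eq : factors (Submonoid.closure (X \ {a}) : Set (FreeMonoid A)) =
    factors (Submonoid.closure X : Set (FreeMonoid A)) := by
  apply Set.Subset.antisymm
  · rintro u ⟨x, y, h⟩
    exact ⟨x, y, Submonoid.closure_mono Set.sdiff_subset h⟩
  · rintro u ⟨x, y, h⟩
    rw [closure_X] at h
    obtain ⟨s, hs⟩ := h
    refine ⟨x, y * FreeMonoid.ofList (s.map fun t => ((t, false) : A)), ?_⟩
    apply dyck_mem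
    rw [← mul_assoc, FreeMonoid.toList_mul, run_append, hs, FreeMonoid.toList_ofList]
    have := run_close s []
    rw [List.append_nil] at this
    exact this

theorem maximal : IsMaximalIn (factors (Submonoid.closure X : Set (FreeMonoid A)))
    (Submonoid.closure X) := by
  rw [closure_X]
  refine ⟨fun w hw => ⟨1, 1, by simpa using hw⟩, ?_⟩
  intro N hMN hN
  refine le_antisymm ?_ hMN
  intro u hu
  by_contra hcon
  have hfail : run u.toList [] = none := by
    rw [← Option.not_isSome_iff_eq_none]
    intro h
    rw [Option.isSome_iff_exists] at h
    exact hcon h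
  obtain ⟨t, ht⟩ := run_fail _ _ hfail
  have hopen : (FreeMonoid.of (t, true) : FreeMonoid A) ∈ M := ⟨[t], by simp [run]⟩
  obtain ⟨x, y, s, hs⟩ := hN (mul_mem (hMN hopen) hu)
  rw [FreeMonoid.toList_mul, FreeMonoid.toList_mul, FreeMonoid.toList_mul, run_append,
    run_append] at hs
  cases hx : run x.toList [] with
  | none => simp [hx] at hs
  | some r =>
    rw [hx, Option.bind_some, run_append] at hs
    have h1 : run (FreeMonoid.of ((t, true) : A)).toList r = some (t :: r) := by simp [run]
    have h2 := ht r
    rw [List.nil_append] at h2
    rw [h1, Option.bind_some, h2] at hs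
    simp at hs

/-- **The statement is false.** Over the four-letter alphabet of two types of brackets there is a
set `X` which is the minimal generating set of `X*`, with `X*` an `F(X*)`-maximal submonoid, and
which is not a minimal factor generator. -/
theorem result : ∃ X : Set (FreeMonoid (Bool × Bool)), IsMinGen X ∧
    IsMaximalIn (factors (Submonoid.closure X : Set (FreeMonoid (Bool × Bool))))
      (Submonoid.closure X) ∧
    ¬ IsMinFactorGen X := by
  refine ⟨X, minGen, maximal, fun h => h (X \ {a}) ?_ factors_eq⟩
  have haX : a ∈ X := by
    refine ⟨⟨[true], by simp [a, run]⟩, ?_, ?_⟩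
    · intro h
      have := congrArg FreeMonoid.length h
      simp [a] at this
    · intro u v _ _ huv
      have h1 := congrArg FreeMonoid.length huv
      rw [FreeMonoid.length_mul] at h1
      have h2 : a.length = 1 := rfl
      rw [h2] at h1
      by_cases h3 : u.length = 0
      · exact Or.inl (FreeMonoid.length_eq_zero.1 h3)
      · exact Or.inr (FreeMonoid.length_eq_zero.1 (by omega))
  exact ⟨Set.sdiff_subset, fun hsub => (hsub haX).2 rfl⟩

end Pool.Agent.Results.MP_51bcab_lc.NotMinimal
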